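import Pool.Agent.Lib.MP_f4f4db_co.Final

/-!
# The Erdős–Hajnal property for point sets of the Fano plane

Every `H ⊆ PG(2,2)` other than the empty set, the whole plane, a set of three non-collinear points
and the complement of such a set has the Erdős–Hajnal property.
-/

namespace Pool.Agent.Results.MP_f4f4db_co.FanoPlane

open scoped LinearAlgebra.Projectivization
open EHProj

theorem result (H : Set (ℙ (ZMod 2) (Fin 3 → ZMod 2))) (hne : H.Nonempty) (hne' : Hᶜ.Nonempty)
    (h3 : ¬ (H.ncard = 3 ∧ ¬ IsLine (ZMod 2) H))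
    (h3' : ¬ (Hᶜ.ncard = 3 ∧ ¬ IsLine (ZMod 2) Hᶜ)) :
    EHProperty (ZMod 2) 3 H := by
  have hsum := ncard_compl_fano H
  have hfin : H.Finite := Set.toFinite H
  have hfin' : Hᶜ.Finite := Set.toFinite Hᶜ
  have h1 : H.ncard ≠ 0 := (Set.ncard_ne_zero_of_mem hne.some_mem hfin)
  have h2 : Hᶜ.ncard ≠ 0 := (Set.ncard_ne_zero_of_mem hne'.some_mem hfin')
  apply final.1 H
  by_cases hA : H.ncard = 3
  · have : IsLine (ZMod 2) H := by
      by_contra hc
      exact h3 ⟨hA, hc⟩
    tauto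
  · by_cases hB : Hᶜ.ncard = 3
    · have : IsLine (ZMod 2) Hᶜ := by
        by_contra hc
        exact h3' ⟨hB, hc⟩
      tauto
    · have : H.ncard = 1 ∨ H.ncard = 2 ∨ H.ncard = 5 ∨ H.ncard = 6 := by omega
      tauto

end Pool.Agent.Results.MP_f4f4db_co.FanoPlane
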