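import Pool.Agent.Lib.MP_f4f4db_co.Claw.C9

/-!
# The Erdős–Hajnal exponent one fifth for lines and for three non-collinear points

Over the field with two elements: every `H ⊆ PG(1,2)`, and every `H ⊆ PG(2,2)` such that `H` or its
complement consists of three non-collinear points, has the Erdős–Hajnal property with every exponent
`δ < 1/5`.
-/

namespace Pool.Agent.Results.MP_f4f4db_co.FifthExponent

open scoped LinearAlgebra.Projectivization
open Module EHProj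

/-- In every `H`-free set of points of `PG(n-1,2)` there is a homogeneous subspace `U` whose
dimension `d` satisfies `n ≤ C d ^ 5 log (1 + d) ^ 2`. -/
def FifthPower (k : ℕ) (H : Set (ℙ (ZMod 2) (Fin k → ZMod 2))) : Prop :=
  ∃ C : ℝ, 0 < C ∧ ∀ n : ℕ, 1 ≤ n → ∀ X : Set (ℙ (ZMod 2) (Fin n → ZMod 2)),
    ¬ ContainsInduced (ZMod 2) H X →
    ∃ U : Submodule (ZMod 2) (Fin n → ZMod 2),
      (n : ℝ) ≤ C * (finrank (ZMod 2) U : ℝ) ^ 5 * Real.log (1 + finrank (ZMod 2) U) ^ 2 ∧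
      ((∀ x : ℙ (ZMod 2) (Fin n → ZMod 2), x.submodule ≤ U → x ∈ X) ∨
       (∀ x : ℙ (ZMod 2) (Fin n → ZMod 2), x.submodule ≤ U → x ∉ X))

/-- The Erdős–Hajnal property of `H` with exponent `δ`. -/
def Exponent (k : ℕ) (H : Set (ℙ (ZMod 2) (Fin k → ZMod 2))) (δ : ℝ) : Prop :=
  ∃ C : ℝ, 0 < C ∧ ∀ n : ℕ, 1 ≤ n → ∀ X : Set (ℙ (ZMod 2) (Fin n → ZMod 2)),
    ¬ ContainsInduced (ZMod 2) H X →
    ∃ U : Submodule (ZMod 2) (Fin n → ZMod 2), C * (n : ℝ) ^ δ < (finrank (ZMod 2) U : ℝ) ∧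
      ((∀ x : ℙ (ZMod 2) (Fin n → ZMod 2), x.submodule ≤ U → x ∈ X) ∨
       (∀ x : ℙ (ZMod 2) (Fin n → ZMod 2), x.submodule ≤ U → x ∉ X))

/-- `H` consists of three non-collinear points. -/
def Triangle {k : ℕ} (H : Set (ℙ (ZMod 2) (Fin k → ZMod 2))) : Prop :=
  H.ncard = 3 ∧ ¬ IsLine (ZMod 2) H

theorem result (k : ℕ) (H : Set (ℙ (ZMod 2) (Fin k → ZMod 2)))
    (h : k = 2 ∨ k = 3 ∧ (Triangle H ∨ Triangle Hᶜ)) :
    FifthPower k H ∧ ∀ δ : ℝ, δ < 1 / 5 → Exponent k H δ := by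
  have key : Exp5.EHFive k H := by
    rcases h with rfl | ⟨rfl, h | h⟩
    · exact Exp5.five_two H
    · exact Exp5.five_claw H h
    · exact Exp5.five_compl H (Exp5.five_claw Hᶜ h)
  exact ⟨key, fun δ hδ => Exp5.ehExponent_of_five key hδ⟩

end Pool.Agent.Results.MP_f4f4db_co.FifthExponent
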