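import Pool.Agent.Lib.MP_f4f4db_co.G2.FI1

/-!
# The full plane and the empty plane over the field with two elements

The Erdős–Hajnal property for `H = PG(2,2)` and `H = ∅ ⊆ PG(2,2)`; polynomial bounds for the vector
space Ramsey numbers `R_{F_2}(3, m)`, and the density theorem behind them.
-/

namespace Pool.Agent.Results.MP_f4f4db_co.FullPlane

open scoped LinearAlgebra.Projectivization
open EHProj

section
variable {V : Type} [AddCommGroup V] [Module (ZMod 2) V]

/-- `X` contains a nonzero vector of `U`. -/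
def Meets (X : Set V) (U : Submodule (ZMod 2) V) : Prop :=
  ∃ v ∈ U, v ≠ 0 ∧ v ∈ X

/-- `X` contains all nonzero vectors of `U`. -/
def Contains (X : Set V) (U : Submodule (ZMod 2) V) : Prop :=
  ∀ v ∈ U, v ≠ 0 → v ∈ X

/-- For all `x, w ∈ U` some `y` satisfies `y, y + x, y + w, y + x + w ∈ A`. -/
def Squares (A : Set V) (U : Submodule (ZMod 2) V) : Prop :=
  ∀ x ∈ U, ∀ w ∈ U, ∃ y, y ∈ A ∧ y + x ∈ A ∧ y + w ∈ A ∧ y + x + w ∈ A

end

/-- Every `X ⊆ V` which contains a nonzero vector of every `m`-dimensional subspace contains all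
nonzero vectors of some `k`-dimensional subspace. -/
def Ramsey (k m : ℕ) (V : Type) [AddCommGroup V] [Module (ZMod 2) V] : Prop :=
  ∀ X : Set V, (∀ U : Submodule (ZMod 2) V, Module.finrank (ZMod 2) U = m → Meets X U) →
    ∃ W : Submodule (ZMod 2) V, Module.finrank (ZMod 2) W = k ∧ Contains X W

/-- There is `C` such that `n ≥ (m + 2) ^ C` implies `R_{F_2}(3, m) ≤ n`. -/
def RamseyBound : Prop :=
  ∃ C : ℕ, ∀ m n : ℕ, (m + 2) ^ C ≤ n → Ramsey 3 m (Fin n → ZMod 2)

/-- Every `A ⊆ F_2^n` with at least `2 ^ (n - t)` elements admits a `t`-dimensional subspace `U` with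
`Squares A U`. -/
def Density (t n : ℕ) : Prop :=
  ∀ A : Set (Fin n → ZMod 2), 2 ^ n ≤ 2 ^ t * A.ncard →
    ∃ U : Submodule (ZMod 2) (Fin n → ZMod 2), Module.finrank (ZMod 2) U = t ∧ Squares A U

/-- There is `C` such that `n ≥ (t + 2) ^ C` implies `Density t n`. -/
def DensityBound : Prop :=
  ∃ C : ℕ, ∀ t n : ℕ, (t + 2) ^ C ≤ n → Density t n

theorem result :
    EHProperty (ZMod 2) 3 (Set.univ : Set (ℙ (ZMod 2) (Fin 3 → ZMod 2))) ∧
    EHProperty (ZMod 2) 3 (∅ : Set (ℙ (ZMod 2) (Fin 3 → ZMod 2))) ∧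
    RamseyBound ∧ DensityBound :=
  ⟨G2.eh_univ, G2.eh_empty, G2.ramsey_poly', G2.density_thm⟩

end Pool.Agent.Results.MP_f4f4db_co.FullPlane
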