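import Pool.Agent.Lib.MP_f4f4db_co.Final

/-!
# The Erdős–Hajnal property for one and three points of the projective line over `F_3`
-/

namespace Pool.Agent.Results.MP_f4f4db_co.TernaryLine

open scoped LinearAlgebra.Projectivization
open EHProj

theorem result (H : Set (ℙ (ZMod 3) (Fin 2 → ZMod 3))) (hH : H.ncard = 1 ∨ H.ncard = 3) :
    EHProperty (ZMod 3) 2 H :=
  final.2 H hH

end Pool.Agent.Results.MP_f4f4db_co.TernaryLine
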